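import Pool.Agent.H818.TG.Defs

/-!
# Complexes of groups of large type: definitions
-/

set_option autoImplicit false

namespace Pool.Agent.H818.PG

open Pool.Agent.H351 Pool.Agent.H818.TG

universe u

/-- `G` is the direct limit of its subgroups `V e`, for `e` an unordered pair of elements of `I`,
along the diagonal subgroups `V s(s, s)`; any two different diagonal subgroups have the same
intersection; and in `V s(s, t)` no product of four elements, alternately in `V s(s, s)` and
`V s(t, t)` and not in their intersection, is trivial. -/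
structure LargeType {G : Type u} [Group G] {I : Type} (V : Sym2 I → Subgroup G) : Prop where
  /-- `V s(s, t)` contains `V s(s, s)` -/
  le : ∀ s t, V s(s, s) ≤ V s(s, t)
  /-- the intersection of two different diagonal subgroups is in all of them -/
  face : ∀ s t u, s ≠ t → V s(s, s) ⊓ V s(t, t) ≤ V s(u, u)
  /-- the subgroups generate `G` -/
  gen : ⨆ e, V e = ⊤
  /-- homomorphisms of the subgroups to a group extend to `G`, if for all `s` and `t` those of
  `V s(s, s)` and `V s(s, t)` agree on `V s(s, s)` -/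
  lift : ∀ (H : Type u) [Group H] (f : ∀ e, V e →* H),
    (∀ s t (x : G) (h : x ∈ V s(s, s)) (h' : x ∈ V s(s, t)),
      f s(s, s) ⟨x, h⟩ = f s(s, t) ⟨x, h'⟩) →
      ∃ F : G →* H, ∀ e (x : V e), F x = f e x
  /-- the angle condition -/
  angle : ∀ s t, s ≠ t → ∀ x ∈ V s(s, s), ∀ y ∈ V s(t, t), ∀ x' ∈ V s(s, s), ∀ y' ∈ V s(t, t),
    x * y * x' * y' = 1 → x ∈ V s(t, t) ∨ y ∈ V s(s, s) ∨ x' ∈ V s(t, t) ∨ y' ∈ V s(s, s)

/-- The types of vertices: `c` (faces), `p s t` (the part near `V s(s, t)` of the edge `s`), `v e`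
(the vertex `e`). -/
inductive Ty (I : Type)
  | c : Ty I
  | p (s t : I) : Ty I
  | v (e : Sym2 I) : Ty I

variable {G : Type u} [Group G] {I : Type}

/-- The subgroups. -/
def B (V : Sym2 I → Subgroup G) : Ty I → Subgroup G
  | .c => ⨅ s, V s(s, s)
  | .p s _ => V s(s, s)
  | .v e => V e

/-- Adjacent types. -/
def tp : Ty I → Ty I → Prop
  | .c, .p _ _ => True
  | .p _ _, .c => True
  | .p s t, .p s' t' => (s = s' ∧ t ≠ t') ∨ (s ≠ t ∧ s' = t ∧ t' = s)
  | .p s t, .v e => e = s(s, t)
  | .v e, .p s t => e = s(s, t)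
  | .c, .c => False
  | .c, .v _ => False
  | .v _, .c => False
  | .v _, .v _ => False

theorem tp_symm : ∀ {a b : Ty I}, tp a b → tp b a
  | .c, .p _ _, _ => trivial
  | .p _ _, .c, _ => trivial
  | .p s t, .p s' t', h => by
    simp only [tp] at h ⊢
    rcases h with ⟨rfl, h⟩ | ⟨h, rfl, rfl⟩
    · exact Or.inl ⟨rfl, h.symm⟩
    · exact Or.inr ⟨h.symm, rfl, rfl⟩
  | .p _ _, .v _, h => h
  | .v _, .p _ _, h => h
  | .c, .c, h => h
  | .c, .v _, h => h
  | .v _, .c, h => h
  | .v _, .v _, h => h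

theorem tp_irrefl : ∀ (a : Ty I), ¬ tp a a
  | .c, h => h
  | .p s t, h => by
    simp only [tp] at h
    rcases h with ⟨-, h⟩ | ⟨h, h1, -⟩
    · exact h rfl
    · exact h h1
  | .v _, h => h

/-- The graph of the cosets; two cosets of adjacent types are adjacent if they have a common
element. -/
def Gr (V : Sym2 I → Subgroup G) : SimpleGraph (Σ t : Ty I, G ⧸ B V t) where
  Adj p q := tp p.1 q.1 ∧ ∃ g : G, (g : G ⧸ B V p.1) = p.2 ∧ (g : G ⧸ B V q.1) = q.2
  symm := ⟨fun p q h => ⟨tp_symm h.1, by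
    obtain ⟨g, h2, h3⟩ := h.2
    exact ⟨g, h3, h2⟩⟩⟩
  loopless := ⟨fun p h => tp_irrefl _ h.1⟩

end Pool.Agent.H818.PG
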