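import Pool.Agent.H818.PG.Defs

/-!
# Complexes of groups of large type: the links of the coset graph (helper570, for helper818)
-/

set_option autoImplicit false

namespace Pool.Agent.H818.PG.L570

open Pool.Agent.H818.PG

universe u

variable {G : Type u} [Group G] {I : Type} {V : Sym2 I → Subgroup G}

/-- `g` is an element of the coset `p`. -/
def In (V : Sym2 I → Subgroup G) (g : G) (p : Σ t : Ty I, G ⧸ B V t) : Prop :=
  (g : G ⧸ B V p.1) = p.2

lemma In.mul {p : Σ t : Ty I, G ⧸ B V t} {T : Ty I} (hp : p.1 = T) {g h : G} (hg : In V g p)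
    (hh : In V h p) : g⁻¹ * h ∈ B V T := by
  subst hp
  exact QuotientGroup.eq.1 (Eq.trans hg (Eq.symm hh))

lemma In.of {p : Σ t : Ty I, G ⧸ B V t} {T : Ty I} (hp : p.1 = T) {g h : G} (hg : In V g p)
    (h' : g⁻¹ * h ∈ B V T) : In V h p := by
  subst hp
  exact Eq.trans (QuotientGroup.eq.2 h').symm hg

lemma In.eq {p q : Σ t : Ty I, G ⧸ B V t} {g : G} (hp : In V g p) (hq : In V g q)
    (h : p.1 = q.1) : p = q := by
  obtain ⟨s, p⟩ := p
  obtain ⟨t, q⟩ := q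
  dsimp only at h
  subst h
  unfold In at hp hq
  dsimp only at hp hq
  rw [← hp, ← hq]

lemma ex_in (p : Σ t : Ty I, G ⧸ B V t) : ∃ g, In V g p :=
  QuotientGroup.mk_surjective p.2

lemma adj_ex {p q : Σ t : Ty I, G ⧸ B V t} (h : (Gr V).Adj p q) :
    ∃ g, In V g p ∧ In V g q := h.2

lemma mk_adj {p q : Σ t : Ty I, G ⧸ B V t} {S T : Ty I} (hp : p.1 = S) (hq : q.1 = T)
    (ht : tp S T) {g : G} (h1 : In V g p) (h2 : In V g q) : (Gr V).Adj p q := by
  subst hp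
  subst hq
  exact ⟨ht, g, h1, h2⟩

/-- F1 -/
lemma F1 {x y : Σ t : Ty I, G ⧸ B V t} {s t : I} (hx : x.1 = .c) (hy : y.1 = .p s t)
    (h : (Gr V).Adj x y) {g : G} (hg : In V g x) : In V g y := by
  obtain ⟨k, hk, hk'⟩ := adj_ex h
  exact hk'.of hy (Subgroup.mem_iInf.1 (hk.mul hx hg) s)

/-- F2 -/
lemma F2 (hV : LargeType V) {x y : Σ t : Ty I, G ⧸ B V t} {s t : I} (hx : x.1 = .p s t)
    (hy : y.1 = .v s(s, t)) (h : (Gr V).Adj x y) {g : G} (hg : In V g x) : In V g y := by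
  obtain ⟨k, hk, hk'⟩ := adj_ex h
  exact hk'.of hy (hV.le s t (hk.mul hx hg))

/-- F3 -/
lemma F3 {x y : Σ t : Ty I, G ⧸ B V t} {s t t' : I} (hx : x.1 = .p s t)
    (hy : y.1 = .p s t') (h : (Gr V).Adj x y) {g : G} (hg : In V g x) : In V g y := by
  obtain ⟨k, hk, hk'⟩ := adj_ex h
  exact hk'.of hy (hk.mul hx hg)

/-! ### the links of the vertices of type `v` -/

lemma tpv {e : Sym2 I} {T : Ty I} (h : tp (.v e) T) : ∃ s t, T = .p s t ∧ e = s(s, t) := by
  cases T with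
  | c => exact h.elim
  | p s t => exact ⟨s, t, rfl, h⟩
  | v e' => exact h.elim

lemma linkV {v a b : Σ t : Ty I, G ⧸ B V t} {e : Sym2 I} (hv : v.1 = .v e)
    (ha : (Gr V).Adj v a) (hb : (Gr V).Adj v b) (hab : (Gr V).Adj a b) :
    ∃ s t, s ≠ t ∧ a.1 = .p s t ∧ b.1 = .p t s := by
  have h1 := ha.1
  have h2 := hb.1
  have h3 := hab.1
  rw [hv] at h1 h2
  obtain ⟨s, t, e1, e2⟩ := tpv h1
  obtain ⟨s', t', e3, e4⟩ := tpv h2
  rw [e1, e3] at h3
  simp only [tp] at h3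
  rcases h3 with ⟨rfl, h4⟩ | ⟨h4, rfl, rfl⟩
  · exfalso
    rw [e2] at e4
    exact h4 (Sym2.congr_right.1 e4)
  · exact ⟨t', s', h4, e1, e3⟩

lemma A4 (hV : LargeType V) {v a b c d : Σ t : Ty I, G ⧸ B V t} {e : Sym2 I} (hv : v.1 = .v e)
    (va : (Gr V).Adj v a) (vb : (Gr V).Adj v b) (vc : (Gr V).Adj v c) (vd : (Gr V).Adj v d)
    (ab : (Gr V).Adj a b) (bc : (Gr V).Adj b c) (cd : (Gr V).Adj c d) (da : (Gr V).Adj d a)
    (nac : a ≠ c) (nbd : b ≠ d) : False := by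
  obtain ⟨s, t, hst, ea, eb⟩ := linkV hv va vb ab
  obtain ⟨s1, t1, -, eb', ec⟩ := linkV hv vb vc bc
  rw [eb] at eb'
  obtain ⟨rfl, rfl⟩ := Ty.p.inj eb'
  obtain ⟨s2, t2, -, ec', ed⟩ := linkV hv vc vd cd
  rw [ec] at ec'
  obtain ⟨rfl, rfl⟩ := Ty.p.inj ec'
  obtain ⟨g0, h0a, h0b⟩ := adj_ex ab
  obtain ⟨g1, h1b, h1c⟩ := adj_ex bc
  obtain ⟨g2, h2c, h2d⟩ := adj_ex cd
  obtain ⟨g3, h3d, h3a⟩ := adj_ex da
  have x0 := h0b.mul eb h1b
  have x1 := h1c.mul ec h2c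
  have x2 := h2d.mul ed h3d
  have x3 := h3a.mul ea h0a
  rcases hV.angle _ _ hst.symm _ x0 _ x1 _ x2 _ x3 (by group) with h | h | h | h
  · exact nac ((h0a.of ea h).eq h1c (ea.trans ec.symm))
  · exact nbd ((h1b.of eb h).eq h2d (eb.trans ed.symm))
  · exact nac ((h2c.of ec h).eq h3a (ec.trans ea.symm)).symm
  · exact nbd ((h3d.of ed h).eq h0b (ed.trans eb.symm)).symm

lemma A5 {v a b c d f : Σ t : Ty I, G ⧸ B V t} {e : Sym2 I} (hv : v.1 = .v e)
    (va : (Gr V).Adj v a) (vb : (Gr V).Adj v b) (vc : (Gr V).Adj v c) (vd : (Gr V).Adj v d)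
    (vf : (Gr V).Adj v f)
    (ab : (Gr V).Adj a b) (bc : (Gr V).Adj b c) (cd : (Gr V).Adj c d) (df : (Gr V).Adj d f)
    (fa : (Gr V).Adj f a) : False := by
  obtain ⟨s, t, hst, ea, eb⟩ := linkV hv va vb ab
  obtain ⟨s1, t1, -, eb', ec⟩ := linkV hv vb vc bc
  rw [eb] at eb'
  obtain ⟨rfl, rfl⟩ := Ty.p.inj eb'
  obtain ⟨s2, t2, -, ec', ed⟩ := linkV hv vc vd cd
  rw [ec] at ec'
  obtain ⟨rfl, rfl⟩ := Ty.p.inj ec'
  obtain ⟨s3, t3, -, ed', ef⟩ := linkV hv vd vf df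
  rw [ed] at ed'
  obtain ⟨rfl, rfl⟩ := Ty.p.inj ed'
  obtain ⟨s4, t4, -, ef', ea'⟩ := linkV hv vf va fa
  rw [ef] at ef'
  obtain ⟨rfl, rfl⟩ := Ty.p.inj ef'
  rw [ea] at ea'
  exact hst (Ty.p.inj ea').1

/-! ### the links of the vertices of type `c` -/

/-- edges in the same group -/
def HH (x y : Ty I) : Prop := ∃ s t t', x = .p s t ∧ y = .p s t' ∧ t ≠ t'

/-- swapped types -/
def SS (x y : Ty I) : Prop := ∃ s t, s ≠ t ∧ x = .p s t ∧ y = .p t s

lemma HS {x y : Ty I} (h : HH x y) (h' : SS x y) : False := by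
  obtain ⟨s, t, t', rfl, rfl, h1⟩ := h
  obtain ⟨s1, t1, h2, h3, h4⟩ := h'
  obtain ⟨rfl, rfl⟩ := Ty.p.inj h3
  exact h2 (Ty.p.inj h4).1

lemma SH {x y z : Ty I} (h : SS x y) (h' : SS y z) : x = z := by
  obtain ⟨s, t, h1, rfl, rfl⟩ := h
  obtain ⟨s1, t1, h2, h3, rfl⟩ := h'
  obtain ⟨rfl, rfl⟩ := Ty.p.inj h3
  rfl

lemma HT {x y z : Ty I} (h : HH x y) (h' : HH y z) : x = z ∨ tp x z := by
  obtain ⟨s, t, t', rfl, rfl, h1⟩ := h
  obtain ⟨s1, t1, t1', h3, rfl, h2⟩ := h'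
  obtain ⟨rfl, rfl⟩ := Ty.p.inj h3
  by_cases h4 : t = t1'
  · left
    rw [h4]
  · right
    exact Or.inl ⟨rfl, h4⟩

lemma HSHS {x y z w : Ty I} (h1 : HH x y) (h2 : SS y z) (h3 : HH z w) (h4 : SS w x) : False := by
  obtain ⟨s, t, t', rfl, rfl, n1⟩ := h1
  obtain ⟨s1, t1, n2, e1, rfl⟩ := h2
  obtain ⟨rfl, rfl⟩ := Ty.p.inj e1
  obtain ⟨s2, t2, t2', e2, rfl, n3⟩ := h3
  obtain ⟨rfl, rfl⟩ := Ty.p.inj e2
  obtain ⟨s3, t3, n4, e3, e4⟩ := h4
  obtain ⟨rfl, rfl⟩ := Ty.p.inj e3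
  exact n3 (Ty.p.inj e4).1

lemma edgeB {v a b : Σ t : Ty I, G ⧸ B V t} (hv : v.1 = .c)
    (ha : (Gr V).Adj v a) (hb : (Gr V).Adj v b) (hab : (Gr V).Adj a b) :
    HH a.1 b.1 ∨ SS a.1 b.1 := by
  have h1 := ha.1
  have h2 := hb.1
  have h3 := hab.1
  rw [hv] at h1 h2
  rcases ea : a.1 with _ | ⟨s, t⟩ | e
  · rw [ea] at h1
    exact h1.elim
  · rcases eb : b.1 with _ | ⟨s', t'⟩ | e
    · rw [eb] at h2
      exact h2.elim
    · rw [ea, eb] at h3
      simp only [tp] at h3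
      rcases h3 with ⟨rfl, h4⟩ | ⟨h4, rfl, rfl⟩
      · exact Or.inl ⟨s, t, t', rfl, rfl, h4⟩
      · exact Or.inr ⟨t', s', h4, rfl, rfl⟩
    · rw [eb] at h2
      exact h2.elim
  · rw [ea] at h1
    exact h1.elim

lemma inB {v a : Σ t : Ty I, G ⧸ B V t} (hv : v.1 = .c) (ha : (Gr V).Adj v a) {g : G}
    (hg : In V g v) : In V g a := by
  have h1 := ha.1
  rw [hv] at h1
  rcases ea : a.1 with _ | ⟨s, t⟩ | e
  · rw [ea] at h1
    exact h1.elim
  · exact F1 hv ea ha hg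
  · rw [ea] at h1
    exact h1.elim

lemma cornerB {v a b c : Σ t : Ty I, G ⧸ B V t} (hv : v.1 = .c)
    (va : (Gr V).Adj v a) (vb : (Gr V).Adj v b) (vc : (Gr V).Adj v c)
    (ab : (Gr V).Adj a b) (bc : (Gr V).Adj b c) (hac : a ≠ c) (nac : ¬ (Gr V).Adj a c) :
    (HH a.1 b.1 ∧ SS b.1 c.1) ∨ (SS a.1 b.1 ∧ HH b.1 c.1) := by
  obtain ⟨g, hg⟩ := ex_in v
  have ga := inB hv va hg
  have gc := inB hv vc hg
  rcases edgeB hv va vb ab with h | h <;> rcases edgeB hv vb vc bc with h' | h'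
  · exfalso
    rcases HT h h' with h1 | h1
    · exact hac (ga.eq gc h1)
    · exact nac (mk_adj rfl rfl h1 ga gc)
  · exact Or.inl ⟨h, h'⟩
  · exact Or.inr ⟨h, h'⟩
  · exfalso
    exact hac (ga.eq gc (SH h h'))

/-! ### the links of the vertices of type `p s t` -/

open scoped Classical in
/-- the kinds of the neighbours of a vertex of type `p s t` -/
noncomputable def kn (s : I) : Ty I → Fin 4
  | .v _ => 0
  | .c => 2
  | .p s' _ => if s' = s then 3 else 1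

/-- the kinds of three consecutive vertices of a full path in the link -/
def Cor (x y z : Fin 4) : Prop :=
  (y = 0 ∧ x = 1 ∧ z = 1) ∨ (y = 1 ∧ (x = 0 ∧ z = 2 ∨ x = 2 ∧ z = 0)) ∨
    (y = 2 ∧ (x = 1 ∧ z = 3 ∨ x = 3 ∧ z = 1)) ∨ (y = 3 ∧ x = 2 ∧ z = 2)

instance (x y z : Fin 4) : Decidable (Cor x y z) := by
  unfold Cor
  infer_instance

set_option maxRecDepth 100000 in
lemma cor4 : ∀ x y z w : Fin 4, Cor w x y → Cor x y z → Cor y z w → Cor z w x → False := by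
  decide

set_option maxRecDepth 100000 in
lemma cor5 : ∀ x y z w r : Fin 4, Cor r x y → Cor x y z → Cor y z w → Cor z w r → Cor w r x →
    False := by
  decide

lemma nbP {s t : I} {T : Ty I} (h : tp (.p s t) T) :
    T = .v s(s, t) ∨ (s ≠ t ∧ T = .p t s) ∨ T = .c ∨ ∃ w, w ≠ t ∧ T = .p s w := by
  cases T with
  | c => exact Or.inr (Or.inr (Or.inl rfl))
  | p s' t' =>
    simp only [tp] at h
    rcases h with ⟨rfl, h4⟩ | ⟨h4, rfl, rfl⟩
    · exact Or.inr (Or.inr (Or.inr ⟨t', h4.symm, rfl⟩))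
    · exact Or.inr (Or.inl ⟨h4, rfl⟩)
  | v e =>
    have h' : e = s(s, t) := h
    rw [h']
    exact Or.inl rfl

section P

variable {s t : I} {v : Σ t : Ty I, G ⧸ B V t} (hv : v.1 = .p s t)

include hv

lemma VV (hV : LargeType V) {a b : Σ t : Ty I, G ⧸ B V t} (va : (Gr V).Adj v a)
    (vb : (Gr V).Adj v b) (ha : a.1 = .v s(s, t)) (hb : b.1 = .v s(s, t)) : a = b := by
  obtain ⟨g, hg⟩ := ex_in v
  exact (F2 hV hv ha va hg).eq (F2 hV hv hb vb hg) (ha.trans hb.symm)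

lemma UU {a b : Σ t : Ty I, G ⧸ B V t} {w w' : I} (va : (Gr V).Adj v a)
    (vb : (Gr V).Adj v b) (ha : a.1 = .p s w) (hb : b.1 = .p s w') :
    a = b ∨ (Gr V).Adj a b := by
  obtain ⟨g, hg⟩ := ex_in v
  have ga := F3 hv ha va hg
  have gb := F3 hv hb vb hg
  by_cases h : w = w'
  · left
    subst h
    exact ga.eq gb (ha.trans hb.symm)
  · right
    exact mk_adj ha hb (Or.inl ⟨rfl, h⟩) ga gb

lemma CU {a b : Σ t : Ty I, G ⧸ B V t} {w' : I} (va : (Gr V).Adj v a)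
    (vb : (Gr V).Adj v b) (ha : a.1 = .c) (hb : b.1 = .p s w') : (Gr V).Adj a b := by
  obtain ⟨g, hg, hga⟩ := adj_ex va
  exact mk_adj ha hb trivial hga (F3 hv hb vb hg)

omit hv in
lemma TCT {a b c : Σ t : Ty I, G ⧸ B V t} (ab : (Gr V).Adj a b)
    (bc : (Gr V).Adj b c) (ha : a.1 = .p t s) (hb : b.1 = .c) (hc : c.1 = .p t s) : a = c := by
  obtain ⟨g, hg⟩ := ex_in b
  exact (F1 hb ha ab.symm hg).eq (F1 hb hc bc hg) (ha.trans hc.symm)

lemma CTC (hV : LargeType V) {a b c : Σ t : Ty I, G ⧸ B V t} (va : (Gr V).Adj v a)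
    (vc : (Gr V).Adj v c) (ab : (Gr V).Adj a b)
    (bc : (Gr V).Adj b c) (hst : s ≠ t) (ha : a.1 = .c) (hb : b.1 = .p t s) (hc : c.1 = .c) :
    a = c := by
  obtain ⟨g, hg⟩ := ex_in a
  obtain ⟨h, hh⟩ := ex_in c
  have gv := F1 ha hv va.symm hg
  have hv' := F1 hc hv vc.symm hh
  have gb := F1 ha hb ab hg
  have hb' := F1 hc hb bc.symm hh
  refine (hg.of ha ?_).eq hh (ha.trans hc.symm)
  refine Subgroup.mem_iInf.2 fun w => ?_
  exact hV.face s t w hst ⟨gv.mul hv hv', gb.mul hb hb'⟩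

lemma corner (hV : LargeType V) {a b c : Σ t : Ty I, G ⧸ B V t}
    (va : (Gr V).Adj v a) (vb : (Gr V).Adj v b) (vc : (Gr V).Adj v c)
    (ab : (Gr V).Adj a b) (bc : (Gr V).Adj b c) (hac : a ≠ c) (nac : ¬ (Gr V).Adj a c) :
    Cor (kn s a.1) (kn s b.1) (kn s c.1) := by
  have h1 := va.1
  have h2 := vb.1
  have h3 := vc.1
  have h4 := ab.1
  have h5 := bc.1
  rw [hv] at h1 h2 h3
  rcases nbP h2 with eb | ⟨hst, eb⟩ | eb | ⟨w, hw, eb⟩
  · -- b of kind V
    rw [eb] at h4 h5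
    rcases nbP h1 with ea | ⟨hst, ea⟩ | ea | ⟨w, hw, ea⟩
    · rw [ea] at h4
      exact h4.elim
    · rcases nbP h3 with ec | ⟨-, ec⟩ | ec | ⟨w, hw, ec⟩
      · rw [ec] at h5
        exact h5.elim
      · left
        rw [ea, eb, ec]
        simp [kn, Ne.symm hst]
      · rw [ec] at h5
        exact h5.elim
      · rw [ec] at h5
        have h6 : s(s, t) = s(s, w) := h5
        exact (hw (Sym2.congr_right.1 h6).symm).elim
    · rw [ea] at h4
      exact h4.elim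
    · rw [ea] at h4
      have h6 : s(s, t) = s(s, w) := h4
      exact (hw (Sym2.congr_right.1 h6).symm).elim
  · -- b of kind T
    rw [eb] at h4 h5
    have key : ∀ {x : Σ t : Ty I, G ⧸ B V t}, tp (.p s t) x.1 → tp (.p t s) x.1 →
        x.1 = .v s(s, t) ∨ x.1 = .c := by
      intro x hx hx'
      rcases nbP hx with ex | ⟨-, ex⟩ | ex | ⟨w, hw, ex⟩
      · exact Or.inl ex
      · rw [ex] at hx'
        exact (tp_irrefl _ hx').elim
      · exact Or.inr ex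
      · rw [ex] at hx'
        simp only [tp] at hx'
        rcases hx' with ⟨h6, -⟩ | ⟨-, -, h6⟩
        · exact (hst h6.symm).elim
        · exact (hw h6).elim
    rcases key h1 (tp_symm h4) with ea | ea <;> rcases key h3 h5 with ec | ec
    · exact (hac (VV hv hV va vc ea ec)).elim
    · right; left
      rw [ea, eb, ec]
      simp [kn, Ne.symm hst]
    · right; left
      rw [ea, eb, ec]
      simp [kn, Ne.symm hst]
    · exact (hac (CTC hv hV va vc ab bc hst ea eb ec)).elim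
  · -- b of kind C
    rw [eb] at h4 h5
    have key : ∀ {x : Σ t : Ty I, G ⧸ B V t}, tp (.p s t) x.1 → tp .c x.1 →
        (s ≠ t ∧ x.1 = .p t s) ∨ ∃ w, w ≠ t ∧ x.1 = .p s w := by
      intro x hx hx'
      rcases nbP hx with ex | ex | ex | ex
      · rw [ex] at hx'
        exact hx'.elim
      · exact Or.inl ex
      · rw [ex] at hx'
        exact hx'.elim
      · exact Or.inr ex
    rcases key h1 (tp_symm h4) with ⟨hst, ea⟩ | ⟨w, hw, ea⟩ <;>
      rcases key h3 h5 with ⟨hst', ec⟩ | ⟨w', hw', ec⟩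
    · exact (hac (TCT ab bc ea eb ec)).elim
    · right; right; left
      rw [ea, eb, ec]
      simp [kn, Ne.symm hst]
    · right; right; left
      rw [ea, eb, ec]
      simp [kn, Ne.symm hst']
    · rcases UU hv va vc ea ec with h | h
      · exact (hac h).elim
      · exact (nac h).elim
  · -- b of kind U
    rw [eb] at h4 h5
    have key : ∀ {x : Σ t : Ty I, G ⧸ B V t}, tp (.p s t) x.1 → tp (.p s w) x.1 →
        x.1 = .c ∨ ∃ w', x.1 = .p s w' := by
      intro x hx hx'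
      rcases nbP hx with ex | ⟨hst, ex⟩ | ex | ⟨w', -, ex⟩
      · rw [ex] at hx'
        have h6 : s(s, t) = s(s, w) := hx'
        exact (hw (Sym2.congr_right.1 h6).symm).elim
      · rw [ex] at hx'
        simp only [tp] at hx'
        rcases hx' with ⟨h6, -⟩ | ⟨-, h6, -⟩
        · exact (hst h6).elim
        · exact (hw h6.symm).elim
      · exact Or.inl ex
      · exact Or.inr ⟨w', ex⟩
    rcases key h1 (tp_symm h4) with ea | ⟨w1, ea⟩ <;> rcases key h3 h5 with ec | ⟨w2, ec⟩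
    · right; right; right
      rw [ea, eb, ec]
      simp [kn]
    · exact (nac (CU hv va vc ea ec)).elim
    · exact (nac (CU hv vc va ec ea).symm).elim
    · rcases UU hv va vc ea ec with h | h
      · exact (hac h).elim
      · exact (nac h).elim

end P

end Pool.Agent.H818.PG.L570

namespace Pool.Agent.H818.PG

open Pool.Agent.H351 Pool.Agent.H818.TG Pool.Agent.H818.PG.L570

universe u

variable {G : Type u} [Group G] {I : Type}

/-- LOC: no full cycles of length four or five in the links. -/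
theorem LOC (V : Sym2 I → Subgroup G) (hV : LargeType V) :
    (∀ v a b c d, (Gr V).Adj v a → (Gr V).Adj v b → (Gr V).Adj v c → (Gr V).Adj v d →
      (Gr V).Adj a b → (Gr V).Adj b c → (Gr V).Adj c d → (Gr V).Adj d a → a ≠ c → b ≠ d →
      (Gr V).Adj a c ∨ (Gr V).Adj b d) ∧
    ∀ v a b c d e, (Gr V).Adj v a → (Gr V).Adj v b → (Gr V).Adj v c → (Gr V).Adj v d →
      (Gr V).Adj v e → (Gr V).Adj a b → (Gr V).Adj b c → (Gr V).Adj c d → (Gr V).Adj d e →
      (Gr V).Adj e a → a ≠ c → b ≠ d → c ≠ e → d ≠ a → e ≠ b →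
      (Gr V).Adj a c ∨ (Gr V).Adj b d ∨ (Gr V).Adj c e ∨ (Gr V).Adj d a ∨ (Gr V).Adj e b := by
  constructor
  · intro v a b c d va vb vc vd ab bc cd da hac hbd
    by_contra hcon
    rw [not_or] at hcon
    obtain ⟨nac, nbd⟩ := hcon
    have nca : ¬ (Gr V).Adj c a := fun h => nac h.symm
    have ndb : ¬ (Gr V).Adj d b := fun h => nbd h.symm
    rcases hv : v.1 with _ | ⟨s, t⟩ | e
    · have k1 := cornerB hv va vb vc ab bc hac nac
      have k2 := cornerB hv vb vc vd bc cd hbd nbd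
      have k3 := cornerB hv vc vd va cd da hac.symm nca
      have k4 := cornerB hv vd va vb da ab hbd.symm ndb
      rcases k1 with ⟨x1, x2⟩ | ⟨x1, x2⟩
      · rcases k3 with ⟨x3, x4⟩ | ⟨x3, x4⟩
        · exact HSHS x1 x2 x3 x4
        · rcases k2 with ⟨x5, x6⟩ | ⟨x5, x6⟩
          · exact HS x5 x2
          · exact HS x6 x3
      · rcases k3 with ⟨x3, x4⟩ | ⟨x3, x4⟩
        · rcases k2 with ⟨x5, x6⟩ | ⟨x5, x6⟩
          · exact HS x3 x6
          · exact HS x2 x5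
        · exact HSHS x2 x3 x4 x1
    · exact cor4 _ _ _ _ (corner hv hV vd va vb da ab hbd.symm ndb)
        (corner hv hV va vb vc ab bc hac nac) (corner hv hV vb vc vd bc cd hbd nbd)
        (corner hv hV vc vd va cd da hac.symm nca)
    · exact A4 hV hv va vb vc vd ab bc cd da hac hbd
  · intro v a b c d e va vb vc vd ve ab bc cd de ea hac hbd hce hda heb
    by_contra hcon
    simp only [not_or] at hcon
    obtain ⟨nac, nbd, nce, nda, neb⟩ := hcon
    rcases hv : v.1 with _ | ⟨s, t⟩ | f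
    · have k1 := cornerB hv va vb vc ab bc hac nac
      have k2 := cornerB hv vb vc vd bc cd hbd nbd
      have k3 := cornerB hv vc vd ve cd de hce nce
      have k4 := cornerB hv vd ve va de ea hda nda
      have k5 := cornerB hv ve va vb ea ab heb neb
      rcases k1 with ⟨x1, x2⟩ | ⟨x1, x2⟩
      · rcases k2 with ⟨y1, -⟩ | ⟨-, y2⟩
        · exact HS y1 x2
        rcases k3 with ⟨-, z2⟩ | ⟨z1, -⟩
        · rcases k4 with ⟨u1, -⟩ | ⟨-, u2⟩
          · exact HS u1 z2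
          · rcases k5 with ⟨-, w2⟩ | ⟨w1, -⟩
            · exact HS x1 w2
            · exact HS u2 w1
        · exact HS y2 z1
      · rcases k2 with ⟨-, y2⟩ | ⟨y1, -⟩
        · rcases k3 with ⟨z1, -⟩ | ⟨-, z2⟩
          · exact HS z1 y2
          · rcases k4 with ⟨-, u2⟩ | ⟨u1, -⟩
            · rcases k5 with ⟨w1, -⟩ | ⟨-, w2⟩
              · exact HS w1 u2
              · exact HS w2 x1
            · exact HS z2 u1
        · exact HS x2 y1
    · exact cor5 _ _ _ _ _ (corner hv hV ve va vb ea ab heb neb)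
        (corner hv hV va vb vc ab bc hac nac) (corner hv hV vb vc vd bc cd hbd nbd)
        (corner hv hV vc vd ve cd de hce nce) (corner hv hV vd ve va de ea hda nda)
    · exact A5 hv va vb vc vd ve ab bc cd de ea

end Pool.Agent.H818.PG
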