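import Pool.Agent.H818.PG.Defs
import Pool.Agent.H818.TG.SCH

/-!
# The coset graph of a complex of groups of large type is connected and simply connected
(helper443 for helper818)
-/

set_option autoImplicit false

namespace Pool.Agent.H818.PG.S443

open Pool.Agent.H351 Pool.Agent.H818.PG
open Pool.Agent.H818.TG (SimplyConn)
open Pool.Agent.H818.TG.P1 (Hm Hm.refl Hm.symm Hm.trans Hm.ctx)

universe u v

section Homot

variable {X : Type v} {Γ : SimpleGraph X}

theorem sp {a b : X} (h : Γ.Adj a b) : Hm Γ [a, b, a] [a] :=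
  ⟨0, (Hq.loop (q := [b, a]) (Cl.spur h 0) []).congr (by simp) (by simp)⟩

theorem tr {a b c : X} (hab : Γ.Adj a b) (hbc : Γ.Adj b c) (hac : Γ.Adj a c) :
    Hm Γ [a, b, c] [a, c] := ⟨1, Hq.tri hab hbc hac⟩

end Homot

section Types

variable {I : Type}

/-- the chosen neighbour of `v e` -/
def pe (o : Sym2 I → I × I) (e : Sym2 I) : Ty I := .p (o e).1 (o e).2

/-- the chosen path from `c` -/
def Pt (o : Sym2 I → I × I) : Ty I → List (Ty I)
  | .c => []
  | .p s t => [.p s t]
  | .v e => [pe o e, .v e]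

/-- the chosen path to `c` -/
def Qt (o : Sym2 I → I × I) : Ty I → List (Ty I)
  | .c => []
  | .p _ _ => [.c]
  | .v e => [pe o e, .c]

theorem pe_cases {o : Sym2 I → I × I} (ho : ∀ e, s((o e).1, (o e).2) = e) {e : Sym2 I} {s t : I}
    (h : e = s(s, t)) : pe o e = .p s t ∨ (pe o e = .p t s ∧ s ≠ t) := by
  have h1 := ho e
  generalize hp : o e = p at h1
  obtain ⟨a, b⟩ := p
  simp only at h1
  rw [h, Sym2.eq_iff] at h1
  have hpe : pe o e = .p a b := by
    unfold pe
    rw [hp]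
  rw [hpe]
  rcases h1 with ⟨rfl, rfl⟩ | ⟨rfl, rfl⟩
  · exact Or.inl rfl
  · by_cases hab : a = b
    · subst hab
      exact Or.inl rfl
    · exact Or.inr ⟨rfl, fun h => hab h.symm⟩

variable {X : Type v} {Γ : SimpleGraph X} {x : Ty I → X} (hx : ∀ s t, tp s t → Γ.Adj (x s) (x t))
  {o : Sym2 I → I × I} (ho : ∀ e, s((o e).1, (o e).2) = e)

include hx

theorem a_cp (s t : I) : Γ.Adj (x .c) (x (.p s t)) := hx _ _ trivial

theorem a_sw {s t : I} (h : s ≠ t) : Γ.Adj (x (.p s t)) (x (.p t s)) :=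
  hx (.p s t) (.p t s) (Or.inr ⟨h, rfl, rfl⟩)

theorem a_pv {s t : I} {e : Sym2 I} (h : e = s(s, t)) : Γ.Adj (x (.p s t)) (x (.v e)) :=
  hx (.p s t) (.v e) h

include ho

theorem a_pe (e : Sym2 I) : Γ.Adj (x (pe o e)) (x (.v e)) := a_pv hx (ho e).symm

theorem m_PQ (i : Ty I) : Hm Γ (x .c :: ((Pt o i).map x ++ (Qt o i).map x)) [x .c] := by
  match i with
  | .c => exact Hm.refl _
  | .p s t => exact sp (a_cp hx s t)
  | .v e =>
    have h1 : Hm Γ [x .c, x (pe o e), x (.v e), x (pe o e), x .c] [x .c, x (pe o e), x .c] :=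
      (sp (a_pe hx ho e)).ctx [x .c] [x .c]
    exact h1.trans (sp (a_cp hx _ _))

theorem m_QP (i : Ty I) : Hm Γ (x i :: ((Qt o i).map x ++ (Pt o i).map x)) [x i] := by
  match i with
  | .c => exact Hm.refl _
  | .p s t => exact sp (a_cp hx s t).symm
  | .v e =>
    have h1 : Hm Γ [x (.v e), x (pe o e), x .c, x (pe o e), x (.v e)]
        [x (.v e), x (pe o e), x (.v e)] :=
      (sp (a_cp hx _ _).symm).ctx [x (.v e)] [x (.v e)]
    exact h1.trans (sp (a_pe hx ho e).symm)

theorem m_adj (i j : Ty I) (h : tp i j) :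
    Hm Γ (x .c :: ((Pt o i).map x ++ [x j])) (x .c :: (Pt o j).map x) := by
  match i, j, h with
  | .c, .p s t, _ => exact Hm.refl _
  | .p s t, .c, _ => exact sp (a_cp hx s t)
  | .p s t, .p s' t', h => exact tr (a_cp hx s t) (hx _ _ h) (a_cp hx s' t')
  | .p s t, .v e, h =>
    have h : e = s(s, t) := h
    show Hm Γ [x .c, x (.p s t), x (.v e)] [x .c, x (pe o e), x (.v e)]
    rcases pe_cases ho h with h1 | ⟨h1, hst⟩
    · rw [h1]
      exact Hm.refl _
    · rw [h1]
      have hts : e = s(t, s) := by rw [h, Sym2.eq_swap]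
      have B := (tr (a_sw hx hst) (a_pv hx hts) (a_pv hx h)).symm.ctx [x .c] []
      have A := (tr (a_cp hx s t) (a_sw hx hst) (a_cp hx t s)).ctx [] [x (.v e)]
      exact B.trans A
  | .v e, .p s t, h =>
    have h : e = s(s, t) := h
    show Hm Γ [x .c, x (pe o e), x (.v e), x (.p s t)] [x .c, x (.p s t)]
    rcases pe_cases ho h with h1 | ⟨h1, hst⟩
    · rw [h1]
      exact (sp (a_pv hx h)).ctx [x .c] []
    · rw [h1]
      have hts : e = s(t, s) := by rw [h, Sym2.eq_swap]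
      have B := (tr (a_pv hx hts) (a_pv hx h).symm (a_sw hx hst.symm)).ctx [x .c] []
      exact B.trans (tr (a_cp hx t s) (a_sw hx hst.symm) (a_cp hx s t))
  | .c, .c, h => exact h.elim
  | .c, .v _, h => exact h.elim
  | .v _, .c, h => exact h.elim
  | .v _, .v _, h => exact h.elim

theorem m_adjQ (i j : Ty I) (h : tp i j) :
    Hm Γ (x i :: x j :: (Qt o j).map x) (x i :: (Qt o i).map x) := by
  match i, j, h with
  | .c, .p s t, _ => exact sp (a_cp hx s t)
  | .p s t, .c, _ => exact Hm.refl _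
  | .p s t, .p s' t', h => exact tr (hx _ _ h) (a_cp hx s' t').symm (a_cp hx s t).symm
  | .p s t, .v e, h =>
    have h : e = s(s, t) := h
    show Hm Γ [x (.p s t), x (.v e), x (pe o e), x .c] [x (.p s t), x .c]
    rcases pe_cases ho h with h1 | ⟨h1, hst⟩
    · rw [h1]
      exact (sp (a_pv hx h)).ctx [] [x .c]
    · rw [h1]
      have hts : e = s(t, s) := by rw [h, Sym2.eq_swap]
      have B := (tr (a_pv hx h) (a_pv hx hts).symm (a_sw hx hst)).ctx [] [x .c]
      exact B.trans (tr (a_sw hx hst) (a_cp hx t s).symm (a_cp hx s t).symm)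
  | .v e, .p s t, h =>
    have h : e = s(s, t) := h
    show Hm Γ [x (.v e), x (.p s t), x .c] [x (.v e), x (pe o e), x .c]
    rcases pe_cases ho h with h1 | ⟨h1, hst⟩
    · rw [h1]
      exact Hm.refl _
    · rw [h1]
      have hts : e = s(t, s) := by rw [h, Sym2.eq_swap]
      have B := (tr (a_pv hx hts).symm (a_sw hx hst.symm) (a_pv hx h).symm).symm.ctx [] [x .c]
      have A := (tr (a_sw hx hst.symm) (a_cp hx s t).symm (a_cp hx t s).symm).ctx [x (.v e)] []
      exact B.trans A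
  | .c, .c, h => exact h.elim
  | .c, .v _, h => exact h.elim
  | .v _, .c, h => exact h.elim
  | .v _, .v _, h => exact h.elim

end Types

variable {G : Type u} [Group G] {I : Type}

/-- the coset of `g` of type `t` -/
def vt (V : Sym2 I → Subgroup G) (g : G) (t : Ty I) : Σ t : Ty I, G ⧸ B V t :=
  ⟨t, (g : G ⧸ B V t)⟩

theorem vt_adj {V : Sym2 I → Subgroup G} {g : G} {s t : Ty I} (h : tp s t) :
    (Gr V).Adj (vt V g s) (vt V g t) := ⟨h, g, rfl, rfl⟩

theorem smul_vt {V : Sym2 I → Subgroup G} (g h : G) (t : Ty I) :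
    g • vt V h t = vt V (g * h) t := rfl

theorem vt_eq {V : Sym2 I → Subgroup G} {g h : G} {t : Ty I} (hh : g⁻¹ * h ∈ B V t) :
    vt V g t = vt V h t := by
  unfold vt
  rw [QuotientGroup.eq.2 hh]

theorem vt_inj {V : Sym2 I → Subgroup G} {g h : G} {s t : Ty I} (e : vt V g s = vt V h t) :
    s = t ∧ g⁻¹ * h ∈ B V s := by
  unfold vt at e
  have h1 : s = t := congrArg Sigma.fst e
  subst h1
  exact ⟨rfl, QuotientGroup.eq.1 (eq_of_heq (Sigma.mk.inj e).2)⟩

theorem exists_vt {V : Sym2 I → Subgroup G} (x : Σ t : Ty I, G ⧸ B V t) :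
    ∃ g, x = vt V g x.1 := by
  obtain ⟨t, q⟩ := x
  obtain ⟨g, rfl⟩ := QuotientGroup.mk_surjective q
  exact ⟨g, rfl⟩

theorem exists_pair (e : Sym2 I) : ∃ p : I × I, s(p.1, p.2) = e := by
  induction e using Sym2.ind with
  | _ a b => exact ⟨(a, b), rfl⟩

theorem reach0 (V : Sym2 I → Subgroup G) (g : G) (t : Ty I) :
    (Gr V).Reachable (vt V g t) (vt V g .c) := by
  match t with
  | .c => exact SimpleGraph.Reachable.refl _
  | .p s t => exact (vt_adj (s := .p s t) (t := .c) trivial).reachable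
  | .v e =>
    obtain ⟨⟨a, b⟩, h⟩ := exists_pair e
    have h1 : tp (.v e) (.p a b) := h.symm
    exact (vt_adj h1).reachable.trans (vt_adj (s := .p a b) (t := .c) trivial).reachable

theorem reach_smul (V : Sym2 I → Subgroup G) (hgen : ⨆ e, V e = ⊤) (a : G) :
    ∀ h : G, (Gr V).Reachable (vt V (h * a) .c) (vt V h .c) := by
  have ha : a ∈ ⨆ e, V e := by rw [hgen]; exact Subgroup.mem_top a
  refine Subgroup.iSup_induction V (C := fun a => ∀ h : G,
    (Gr V).Reachable (vt V (h * a) .c) (vt V h .c)) ha ?_ ?_ ?_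
  · intro i x hx h
    have e : vt V (h * x) (.v i) = vt V h (.v i) := by
      refine vt_eq ?_
      have : (h * x)⁻¹ * h = x⁻¹ := by group
      rw [this]
      exact (V i).inv_mem hx
    have h1 := (reach0 V (h * x) (.v i)).symm
    rw [e] at h1
    exact h1.trans (reach0 V h (.v i))
  · intro h
    rw [mul_one]
  · intro x y hx hy h
    have h1 := hy (h * x)
    rw [mul_assoc] at h1
    exact h1.trans (hx h)

theorem gr_connected (V : Sym2 I → Subgroup G) (hV : LargeType V) : (Gr V).Connected := by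
  have key : ∀ x, (Gr V).Reachable x (vt V 1 .c) := by
    intro x
    obtain ⟨g, hg⟩ := exists_vt x
    rw [hg]
    have h1 := reach_smul V hV.gen g 1
    rw [one_mul] at h1
    exact (reach0 V g x.1).trans h1
  have : Nonempty (Σ t : Ty I, G ⧸ B V t) := ⟨vt V 1 .c⟩
  exact ⟨fun x y => (key x).trans (key y).symm⟩

theorem gr_act (V : Sym2 I → Subgroup G) (g : G) (x y : Σ t : Ty I, G ⧸ B V t)
    (h : (Gr V).Adj x y) : (Gr V).Adj (g • x) (g • y) := by
  obtain ⟨h1, k, h2, h3⟩ := h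
  obtain ⟨s, q⟩ := x
  obtain ⟨t, r⟩ := y
  simp only at h1 h2 h3
  subst h2 h3
  exact ⟨h1, g * k, rfl, rfl⟩

/-- SCP -/
theorem SCP [Nonempty I] (V : Sym2 I → Subgroup G) (hV : LargeType V) :
    (Gr V).Connected ∧ SimplyConn (Gr V) := by
  have hconn := gr_connected V hV
  refine ⟨hconn, ?_⟩
  have hv : ∀ s t, tp s t → (Gr V).Adj (vt V 1 s) (vt V 1 t) := fun s t h => vt_adj h
  choose o ho using exists_pair (I := I)
  refine Pool.Agent.H818.TG.P1.SCH (V := Σ t : Ty I, G ⧸ B V t) (Γ := Gr V) hconn (gr_act V)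
    (vt V 1) (B V) .c (fun t => (Pt o t).map (vt V 1)) (fun t => (Qt o t).map (vt V 1)) ?_ ?_ ?_
    ?_ ?_ ?_ ?_ ?_ ?_ ?_ ?_ ?_ ?_
  · -- hfix
    intro i a ha
    rw [smul_vt]
    refine vt_eq ?_
    simpa using ha
  · -- hgen
    rw [eq_top_iff, ← hV.gen]
    exact iSup_le fun i => le_iSup (B V) (.v i)
  · -- hedge
    intro x y h
    obtain ⟨h1, g, h2, h3⟩ := h
    refine ⟨g, x.1, y.1, ?_, ?_, vt_adj h1⟩
    · rw [smul_vt, mul_one]
      obtain ⟨s, q⟩ := x
      simp only at h2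
      subst h2
      rfl
    · rw [smul_vt, mul_one]
      obtain ⟨t, r⟩ := y
      simp only at h3
      subst h3
      rfl
  · -- hsep
    intro g h i j e
    rw [smul_vt, smul_vt, mul_one, mul_one] at e
    exact vt_inj e
  · rfl
  · rfl
  · -- hlastP
    intro i
    match i with
    | .c => rfl
    | .p s t => rfl
    | .v e => rfl
  · -- hlastQ
    intro i
    match i with
    | .c => rfl
    | .p s t => rfl
    | .v e => rfl
  · exact fun i => m_PQ hv ho i
  · exact fun i => m_QP hv ho i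
  · exact fun i j h => m_adj hv ho i j h.1
  · exact fun i j h => m_adjQ hv ho i j h.1
  · -- hF
    intro H _ f hf
    have hf' : ∀ s t, tp s t → ∀ (x : G) (hs : x ∈ B V s) (ht : x ∈ B V t),
        f s ⟨x, hs⟩ = f t ⟨x, ht⟩ := fun s t h => hf s t (vt_adj h)
    have hpv : ∀ (s t : I) (x : G) (hx : x ∈ V s(s, s)) (hx' : x ∈ V s(s, t)),
        f (.p s t) ⟨x, hx⟩ = f (.v s(s, t)) ⟨x, hx'⟩ := fun s t x hx hx' =>
      hf' (.p s t) (.v s(s, t)) rfl x hx hx'
    have hpp : ∀ (s t : I) (x : G) (hx : x ∈ V s(s, s)),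
        f (.p s t) ⟨x, hx⟩ = f (.p s s) ⟨x, hx⟩ := by
      intro s t x hx
      by_cases hst : s = t
      · subst hst
        rfl
      · exact hf' (.p s t) (.p s s) (Or.inl ⟨rfl, fun h => hst h.symm⟩) x hx hx
    obtain ⟨F, hF⟩ := hV.lift H (fun e => f (.v e)) (by
      intro s t x hx hx'
      exact (hpv s s x hx hx).symm.trans ((hpp s t x hx).symm.trans (hpv s t x hx hx')))
    refine ⟨F, ?_⟩
    intro t x
    match t, x with
    | .v e, x => exact hF e x
    | .p s t, x =>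
      have hx : (x : G) ∈ V s(s, s) := x.2
      have hx' : (x : G) ∈ V s(s, t) := hV.le s t hx
      exact (hF s(s, t) ⟨x, hx'⟩).trans (hpv s t x hx hx').symm
    | .c, x =>
      obtain ⟨s⟩ := ‹Nonempty I›
      have hx : (x : G) ∈ V s(s, s) := by
        have h1 : (x : G) ∈ ⨅ s, V s(s, s) := x.2
        exact (Subgroup.mem_iInf.1 h1) s
      have h2 : f .c ⟨(x : G), x.2⟩ = f (.p s s) ⟨(x : G), hx⟩ :=
        hf' .c (.p s s) trivial x x.2 hx
      exact (hF s(s, s) ⟨x, hx⟩).trans ((hpv s s x hx hx).symm.trans h2.symm)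

end Pool.Agent.H818.PG.S443
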