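import Pool.Agent.H818.TG.Fin
import Pool.Agent.H818.PG.LOC
import Pool.Agent.H818.PG.SCP

/-!
# Complexes of groups of large type: the action on a bridged graph
-/

set_option autoImplicit false

namespace Pool.Agent.H818.PG

open Pool.Agent.H351 Pool.Agent.H818.FG Pool.Agent.H818.CS
open Pool.Agent.N506.EX (IsExact CoarselyEmbeds)

universe u

/-- encoding of the types -/
def enc {I : Type} : Ty I → Option ((I × I) ⊕ Sym2 I)
  | .c => none
  | .p s t => some (.inl (s, t))
  | .v e => some (.inr e)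

theorem enc_inj {I : Type} : Function.Injective (enc : Ty I → Option ((I × I) ⊕ Sym2 I)) := by
  intro a b h
  cases a <;> cases b <;> simp_all [enc]

theorem finite_ty {I : Type} [Finite I] : Finite (Ty I) := by
  haveI : Finite (Sym2 I) := by
    refine Finite.of_surjective (fun p : I × I => s(p.1, p.2)) ?_
    intro e
    induction e using Sym2.ind with
    | _ a b => exact ⟨(a, b), rfl⟩
  exact Finite.of_injective enc enc_inj

variable {G : Type u} [Group G] {I : Type} {V : Sym2 I → Subgroup G}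

theorem gr_systolic [Nonempty I] (hV : LargeType V) : Pool.Agent.H818.TG.Systolic (Gr V) where
  conn := (S443.SCP V hV).1
  simply := (S443.SCP V hV).2
  links := ⟨(LOC V hV).1, (LOC V hV).2⟩

/-- the cliques are finite of bounded size -/
theorem gr_cliques [Finite I] : CliquesLE (Gr V) (Nat.card (Ty I)) := by
  classical
  intro s hs
  haveI : Finite (Ty I) := finite_ty
  haveI := Fintype.ofFinite (Ty I)
  rw [Nat.card_eq_fintype_card]
  refine Finset.card_le_card_of_injOn (fun x => x.1) (fun _ _ => Finset.mem_univ _) ?_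
  intro x hx y hy hxy
  by_contra hne
  have h := hs hx hy hne
  have h1 : tp x.1 y.1 := h.1
  have h2 : x.1 = y.1 := hxy
  rw [h2] at h1
  exact tp_irrefl _ h1

theorem gr_act (g : G) (x y : Σ t : Ty I, G ⧸ B V t) (h : (Gr V).Adj x y) :
    (Gr V).Adj (g • x) (g • y) := by
  obtain ⟨h1, k, h2, h3⟩ := h
  refine ⟨h1, g * k, ?_, ?_⟩
  · show ((g * k : G) : G ⧸ B V x.1) = g • x.2
    rw [← h2]; rfl
  · show ((g * k : G) : G ⧸ B V y.1) = g • y.2
    rw [← h3]; rfl

/-- the stabilizer of a coset embeds in the subgroup -/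
theorem stab_emb (t : Ty I) (k : G) :
    ∃ f : MulAction.stabilizer G (⟨t, (k : G ⧸ B V t)⟩ : Σ t : Ty I, G ⧸ B V t) →* B V t,
      Function.Injective f := by
  have hmem : ∀ g : MulAction.stabilizer G
      (⟨t, (k : G ⧸ B V t)⟩ : Σ t : Ty I, G ⧸ B V t), k⁻¹ * g * k ∈ B V t := by
    intro g
    have h1 : (⟨t, (((g : G) * k : G) : G ⧸ B V t)⟩ : Σ t : Ty I, G ⧸ B V t) =
        ⟨t, (k : G ⧸ B V t)⟩ := g.2
    have h2 : (((g : G) * k : G) : G ⧸ B V t) = (k : G ⧸ B V t) := by simpa using h1
    have h3 := QuotientGroup.eq.1 h2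
    have h4 : ((g : G) * k)⁻¹ * k = (k⁻¹ * g * k)⁻¹ := by group
    rw [h4] at h3
    exact (B V t).inv_mem_iff.1 h3
  refine ⟨⟨⟨fun g => ⟨k⁻¹ * g * k, hmem g⟩, ?_⟩, ?_⟩, ?_⟩
  · ext; simp
  · intro g h
    ext
    simp only [Subgroup.coe_mul]
    group
  · intro g h hgh
    have h1 : k⁻¹ * (g : G) * k = k⁻¹ * h * k := congrArg Subtype.val hgh
    ext
    simpa using h1

theorem B_le [Nonempty I] (t : Ty I) : ∃ e, B V t ≤ V e := by
  cases t with
  | c => exact ⟨s(Classical.arbitrary I, Classical.arbitrary I), iInf_le _ (Classical.arbitrary I)⟩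
  | p s t => exact ⟨s(s, s), le_rfl⟩
  | v e => exact ⟨e, le_rfl⟩

theorem LargeType.isExact_iff [Finite I] [Nonempty I] (hV : LargeType V) :
    IsExact G ↔ ∀ e, IsExact (V e) := by
  constructor
  · intro h i
    exact Pool.Agent.H818.Bd.isExact_of_injective h (Subgroup.subtype _)
      (Subgroup.subtype_injective _)
  · intro h
    refine (((gr_systolic hV).bridged.tame gr_cliques).isExact_iff
      (fun g x y => gr_act g x y)).2 ?_
    rintro ⟨t, x⟩
    obtain ⟨k, rfl⟩ := QuotientGroup.mk_surjective x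
    obtain ⟨f, hf⟩ := stab_emb (V := V) t k
    obtain ⟨i, hi⟩ := B_le (V := V) t
    exact Pool.Agent.H818.Bd.isExact_of_injective (h i) ((Subgroup.inclusion hi).comp f)
      ((Subgroup.inclusion_injective hi).comp hf)

theorem LargeType.coarselyEmbeds_iff [Finite I] [Nonempty I] [Countable G] (hV : LargeType V) :
    CoarselyEmbeds G ↔ ∀ e, CoarselyEmbeds (V e) := by
  constructor
  · intro h i
    exact CoarselyEmbeds.of_injective h (Subgroup.subtype _) (Subgroup.subtype_injective _)
  · intro h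
    refine (((gr_systolic hV).bridged.tame gr_cliques).coarselyEmbeds_iff
      (fun g x y => gr_act g x y)).2 ?_
    rintro ⟨t, x⟩
    obtain ⟨k, rfl⟩ := QuotientGroup.mk_surjective x
    obtain ⟨f, hf⟩ := stab_emb (V := V) t k
    obtain ⟨i, hi⟩ := B_le (V := V) t
    exact CoarselyEmbeds.of_injective (h i) ((Subgroup.inclusion hi).comp f)
      ((Subgroup.inclusion_injective hi).comp hf)

end Pool.Agent.H818.PG
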